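import Mathlib
import Pool.Agent.X188.HardySph
import Pool.Agent.X188.RowVN

/-! The row-valued von Neumann inequality does not imply complete contractivity. -/

set_option autoImplicit false
set_option linter.unusedSectionVars false
open scoped InnerProductSpace ComplexConjugate
open Pool.Agent.X188

namespace Pool.Agent.Results.MP_59d57e_an.RowNotComplete

noncomputable section

variable {d : ℕ}

/-- Evaluation of a polynomial at a (commuting) tuple of operators: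
`p(T) = ∑ c_s T₁^{s₁} ⋯ T_d^{s_d}`. -/
def polyEval {H : Type} [NormedAddCommGroup H] [InnerProductSpace ℂ H] (T : Fin d → H →L[ℂ] H)
    (p : MvPolynomial (Fin d) ℂ) : H →L[ℂ] H :=
  ∑ s ∈ p.support, MvPolynomial.coeff s p • (List.ofFn fun i => T i ^ s i).prod

/-- `𝓗`, with the vectors `k z` (`z ∈ Ω`), is the reproducing kernel Hilbert space of the kernel
`l` on `Ω`: an element `f` is the function `z ↦ ⟨k z, f⟩`, it is determined by this function, and
`l(z,w) = ⟨k z, k w⟩`, so that `k w` is the function `l(·,w)` and `f(z) = ⟨l(·,z), f⟩`. -/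
structure IsRKHS {𝓗 : Type} [NormedAddCommGroup 𝓗] [InnerProductSpace ℂ 𝓗]
    (Ω : Set (Fin d → ℂ)) (k : (Fin d → ℂ) → 𝓗) (l : (Fin d → ℂ) → (Fin d → ℂ) → ℂ) : Prop where
  kernel : ∀ z ∈ Ω, ∀ w ∈ Ω, l z w = ⟪k z, k w⟫_ℂ
  total : ∀ f : 𝓗, (∀ z ∈ Ω, ⟪k z, f⟫_ℂ = 0) → f = 0

/-- Multiplication by the matrix polynomial `P` maps `𝓗 ⊗ ℂ^m` to `𝓗 ⊗ ℂ^q` with norm at most
`c`. -/
def MultNormLE {𝓗 : Type} [NormedAddCommGroup 𝓗] [InnerProductSpace ℂ 𝓗]
    (Ω : Set (Fin d → ℂ)) (k : (Fin d → ℂ) → 𝓗) {q m : ℕ}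
    (P : Matrix (Fin q) (Fin m) (MvPolynomial (Fin d) ℂ)) (c : ℝ) : Prop :=
  ∀ F : Fin m → 𝓗, ∃ G : Fin q → 𝓗,
    (∀ z ∈ Ω, ∀ i, ⟪k z, G i⟫_ℂ = ∑ j, MvPolynomial.eval z (P i j) * ⟪k z, F j⟫_ℂ) ∧
    ∑ i, ‖G i‖ ^ 2 ≤ c ^ 2 * ∑ j, ‖F j‖ ^ 2

/-- The operator `P(T) : H^m → H^q` has norm at most `c`. -/
def EvalNormLE {H : Type} [NormedAddCommGroup H] [InnerProductSpace ℂ H]
    (T : Fin d → H →L[ℂ] H) {q m : ℕ}
    (P : Matrix (Fin q) (Fin m) (MvPolynomial (Fin d) ℂ)) (c : ℝ) : Prop :=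
  ∀ x : Fin m → H, ∑ i, ‖∑ j, polyEval T (P i j) (x j)‖ ^ 2 ≤ c ^ 2 * ∑ j, ‖x j‖ ^ 2

/-- The inequality `‖P(T)‖ ≤ ‖P‖_Mult`. -/
def Star {𝓗 H : Type} [NormedAddCommGroup 𝓗] [InnerProductSpace ℂ 𝓗]
    [NormedAddCommGroup H] [InnerProductSpace ℂ H]
    (Ω : Set (Fin d → ℂ)) (k : (Fin d → ℂ) → 𝓗) (T : Fin d → H →L[ℂ] H) {q m : ℕ}
    (P : Matrix (Fin q) (Fin m) (MvPolynomial (Fin d) ℂ)) : Prop :=
  ∀ c : ℝ, 0 ≤ c → MultNormLE Ω k P c → EvalNormLE T P c

/-- the unit ball of `ℂ²` -/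
def ball2 : Set (Fin 2 → ℂ) := {z | ∑ i, ‖z i‖ ^ 2 < 1}

theorem ball2_open : IsOpen ball2 := by
  unfold ball2
  exact isOpen_lt (by fun_prop) continuous_const

theorem ball2_conn : IsConnected ball2 := by
  have hc : StarConvex ℝ 0 ball2 := by
    intro z hz a b ha hb hab
    unfold ball2 at hz ⊢
    simp only [Set.mem_ofPred_eq, smul_zero, zero_add, Pi.smul_apply, norm_smul, mul_pow] at hz ⊢
    rw [← Finset.mul_sum, Real.norm_of_nonneg hb]
    have hb1 : b ≤ 1 := by linarith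
    have h0 : 0 ≤ ∑ i, ‖z i‖ ^ 2 := Finset.sum_nonneg fun i _ => by positivity
    nlinarith [sq_nonneg b, sq_nonneg (1 - b)]
  have h0 : (0 : Fin 2 → ℂ) ∈ ball2 := by
    unfold ball2; simp
  exact ⟨⟨0, h0⟩, (hc.isPathConnected h0).isConnected.isPreconnected⟩

/-- `ℂ³` -/
abbrev E3 : Type := EuclideanSpace ℂ (Fin 3)

/-- `T₁ = E₂₁`, `T₂ = E₃₁` on `ℂ³` -/
def TT (i : Fin 2) : E3 →L[ℂ] E3 :=
  (EuclideanSpace.proj (0 : Fin 3) : E3 →L[ℂ] ℂ).smulRight (EuclideanSpace.single i.succ (1 : ℂ))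

theorem TT_apply (i : Fin 2) (x : E3) : TT i x = x 0 • EuclideanSpace.single i.succ (1 : ℂ) := rfl

theorem TT_mul (i j : Fin 2) : TT i * TT j = 0 := by
  ext x
  change TT i (TT j x) _ = 0
  rw [TT_apply, TT_apply]
  simp

theorem prodT (s : Fin 2 →₀ ℕ) : (List.ofFn fun i => TT i ^ s i).prod =
    (if s = 0 then 1 else 0) + (if s = Finsupp.single 0 1 then TT 0 else 0) +
      (if s = Finsupp.single 1 1 then TT 1 else 0) := by
  have e : (List.ofFn fun i => TT i ^ s i).prod = TT 0 ^ s 0 * TT 1 ^ s 1 := by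
    simp [List.ofFn_succ]
  have ez : s = 0 ↔ s 0 = 0 ∧ s 1 = 0 := by
    constructor
    · rintro rfl; simp
    · rintro ⟨h0, h1⟩
      ext i; fin_cases i
      · simpa using h0
      · simpa using h1
  have e0 : s = Finsupp.single 0 1 ↔ s 0 = 1 ∧ s 1 = 0 := by
    constructor
    · rintro rfl; simp
    · rintro ⟨h0, h1⟩
      ext i; fin_cases i
      · simpa using h0
      · simpa using h1
  have e1 : s = Finsupp.single 1 1 ↔ s 0 = 0 ∧ s 1 = 1 := by
    constructor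
    · rintro rfl; simp
    · rintro ⟨h0, h1⟩
      ext i; fin_cases i
      · simpa using h0
      · simpa using h1
  rw [e]
  simp only [ez, e0, e1]
  have hsq : ∀ (i : Fin 2) (n : ℕ), 2 ≤ n → TT i ^ n = 0 := by
    intro i n hn
    obtain ⟨k, rfl⟩ := Nat.exists_eq_add_of_le hn
    rw [pow_add, pow_two, TT_mul, zero_mul]
  rcases Nat.lt_or_ge (s 0) 2 with h0 | h0
  · rcases Nat.lt_or_ge (s 1) 2 with h1 | h1
    · interval_cases h2 : s 0 <;> interval_cases h3 : s 1 <;> simp [TT_mul]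
    · rw [hsq 1 _ h1, mul_zero, if_neg (by omega), if_neg (by omega), if_neg (by omega)]
      simp
  · rw [hsq 0 _ h0, zero_mul, if_neg (by omega), if_neg (by omega), if_neg (by omega)]
    simp

theorem sum_ite_gen {V : Type} [AddCommGroup V] [Module ℂ V] (p : MvPolynomial (Fin 2) ℂ)
    (a : Fin 2 →₀ ℕ) (X : V) :
    ∑ s ∈ p.support, MvPolynomial.coeff s p • (if s = a then X else 0) = MvPolynomial.coeff a p • X := by
  by_cases ha : a ∈ p.support
  · rw [Finset.sum_eq_single a]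
    · rw [if_pos rfl]
    · intro b _ hb; rw [if_neg hb, smul_zero]
    · intro h; exact absurd ha h
  · rw [MvPolynomial.notMem_support_iff.1 ha, zero_smul]
    refine Finset.sum_eq_zero fun s hs => ?_
    rw [if_neg (by rintro rfl; exact ha hs), smul_zero]

theorem aux1 {V : Type} [AddCommGroup V] [Module ℂ V] (x y z : V) :
    (0 : ℂ) • x + (1 : ℂ) • y + (0 : ℂ) • z = y := by simp

theorem aux2 {V : Type} [AddCommGroup V] [Module ℂ V] (x y z : V) :
    (0 : ℂ) • x + (0 : ℂ) • y + (1 : ℂ) • z = z := by simp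

theorem polyEval_TT (p : MvPolynomial (Fin 2) ℂ) : polyEval TT p =
    MvPolynomial.coeff 0 p • (1 : E3 →L[ℂ] E3) + MvPolynomial.coeff (Finsupp.single 0 1) p • TT 0 +
      MvPolynomial.coeff (Finsupp.single 1 1) p • TT 1 := by
  unfold polyEval
  have key : ∀ (a : Fin 2 →₀ ℕ) (X : E3 →L[ℂ] E3),
      ∑ s ∈ p.support, MvPolynomial.coeff s p • (if s = a then X else 0) = MvPolynomial.coeff a p • X := by
    intro a X
    exact sum_ite_gen p a X
  have h1 : ∀ s ∈ p.support, MvPolynomial.coeff s p • (List.ofFn fun i => TT i ^ s i).prod =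
      MvPolynomial.coeff s p • (if s = 0 then (1 : E3 →L[ℂ] E3) else 0) +
        MvPolynomial.coeff s p • (if s = Finsupp.single 0 1 then TT 0 else 0) +
        MvPolynomial.coeff s p • (if s = Finsupp.single 1 1 then TT 1 else 0) := by
    intro s _
    rw [prodT, smul_add, smul_add]
  rw [Finset.sum_congr rfl h1, Finset.sum_add_distrib, Finset.sum_add_distrib, key, key, key]

theorem polyEval_apply (p : MvPolynomial (Fin 2) ℂ) (x : E3) :
    (polyEval TT p x) 0 = MvPolynomial.coeff 0 p * x 0 ∧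
    (polyEval TT p x) 1 = MvPolynomial.coeff (Finsupp.single 0 1) p * x 0 +
      MvPolynomial.coeff 0 p * x 1 ∧
    (polyEval TT p x) 2 = MvPolynomial.coeff (Finsupp.single 1 1) p * x 0 +
      MvPolynomial.coeff 0 p * x 2 := by
  rw [polyEval_TT]
  simp only [_root_.add_apply, _root_.smul_apply,
    _root_.one_apply_eq_self, TT_apply, PiLp.add_apply, PiLp.smul_apply, smul_eq_mul,
    PiLp.single_apply]
  refine ⟨?_, ?_, ?_⟩
  · simp
  · simp [add_comm]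
  · simp [add_comm]

/-- the sup norm bound on the ball -/
theorem sup_bd {m : ℕ} (P : Matrix (Fin 1) (Fin m) (MvPolynomial (Fin 2) ℂ)) {c : ℝ}
    (h : MultNormLE ball2 HardySph.kk P c) (z : Fin 2 → ℂ) (hz : ∑ i, ‖z i‖ ^ 2 < 1) :
    ∑ j, ‖MvPolynomial.eval z (P 0 j)‖ ^ 2 ≤ c ^ 2 := by
  set K := ‖HardySph.kk z‖ with hK
  have hKpos : 0 < K := by
    rw [hK, norm_pos_iff]
    intro h0
    have h1 := HardySph.kk_apply hz (0, 0)
    rw [h0] at h1
    have h2 : HardySph.kc z (0, 0) = 1 := by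
      unfold HardySph.kc HardySph.cc HardySph.NN
      simp
    rw [h2] at h1
    exact zero_ne_one h1
  set S := ∑ j, ‖MvPolynomial.eval z (P 0 j)‖ ^ 2 with hS
  have hS0 : 0 ≤ S := Finset.sum_nonneg fun j _ => by positivity
  obtain ⟨G, hG1, hG2⟩ := h fun j => conj (MvPolynomial.eval z (P 0 j)) • HardySph.kk z
  have e1 := hG1 z hz 0
  have e2 : ∑ j, MvPolynomial.eval z (P 0 j) * ⟪HardySph.kk z, conj (MvPolynomial.eval z (P 0 j)) • HardySph.kk z⟫_ℂ =
      ((S * K ^ 2 : ℝ) : ℂ) := by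
    rw [hS, Finset.sum_mul]
    push_cast
    refine Finset.sum_congr rfl fun j _ => ?_
    rw [inner_smul_right, inner_self_eq_norm_sq_to_K, ← mul_assoc, Complex.mul_conj,
      Complex.normSq_eq_norm_sq]
    push_cast
    rfl
  rw [e2] at e1
  have e3 : S * K ^ 2 ≤ K * ‖G 0‖ := by
    have := norm_inner_le_norm (𝕜 := ℂ) (HardySph.kk z) (G 0)
    rw [e1, Complex.norm_real, Real.norm_of_nonneg (by positivity)] at this
    exact this
  have e4 : ‖G 0‖ ^ 2 ≤ c ^ 2 * (S * K ^ 2) := by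
    have h5 : ∑ j, ‖conj (MvPolynomial.eval z (P 0 j)) • HardySph.kk z‖ ^ 2 = S * K ^ 2 := by
      rw [hS, Finset.sum_mul]
      refine Finset.sum_congr rfl fun j _ => ?_
      rw [norm_smul, mul_pow, RCLike.norm_conj]
    rw [h5] at hG2
    simpa using hG2
  rcases eq_or_lt_of_le hS0 with h0 | h0
  · rw [← h0]; positivity
  · have e5 : (S * K ^ 2) ^ 2 ≤ K ^ 2 * (c ^ 2 * (S * K ^ 2)) := by
      calc (S * K ^ 2) ^ 2 ≤ (K * ‖G 0‖) ^ 2 := by gcongr
        _ = K ^ 2 * ‖G 0‖ ^ 2 := by ring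
        _ ≤ _ := by gcongr
    have e6 : S * (S * K ^ 4) ≤ c ^ 2 * (S * K ^ 4) := by nlinarith
    exact le_of_mul_le_mul_right e6 (by positivity)

theorem row_ineq {m : ℕ} (P : Matrix (Fin 1) (Fin m) (MvPolynomial (Fin 2) ℂ)) :
    Star ball2 HardySph.kk TT P := by
  intro c hc h x
  have hsup := sup_bd P h
  set a : Fin m → ℂ := fun j => MvPolynomial.coeff 0 (P 0 j) with ha
  set b0 : Fin m → ℂ := fun j => MvPolynomial.coeff (Finsupp.single 0 1) (P 0 j) with hb0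
  set b1 : Fin m → ℂ := fun j => MvPolynomial.coeff (Finsupp.single 1 1) (P 0 j) with hb1
  set y : E3 := ∑ j, polyEval TT (P 0 j) (x j) with hy
  have yi : ∀ i : Fin 3, y i = ∑ j, (polyEval TT (P 0 j) (x j)) i := by
    intro i
    change (EuclideanSpace.proj i : E3 →L[ℂ] ℂ) y = _
    rw [hy, map_sum]
    rfl
  have y0 : y 0 = ∑ j, a j * x j 0 := by
    rw [yi]; exact Finset.sum_congr rfl fun j _ => (polyEval_apply _ _).1
  have y1 : y 1 = ∑ j, (b0 j * x j 0 + a j * x j 1) := by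
    rw [yi]; exact Finset.sum_congr rfl fun j _ => (polyEval_apply _ _).2.1
  have y2 : y 2 = ∑ j, (b1 j * x j 0 + a j * x j 2) := by
    rw [yi]; exact Finset.sum_congr rfl fun j _ => (polyEval_apply _ _).2.2
  have hysq : ‖y‖ ^ 2 = ‖y 0‖ ^ 2 + (‖y 1‖ ^ 2 + ‖y 2‖ ^ 2) := by
    rw [EuclideanSpace.norm_sq_eq, Fin.sum_univ_three]; ring
  have hxsq : ∀ j, ‖x j‖ ^ 2 = ‖x j 0‖ ^ 2 + (‖x j 1‖ ^ 2 + ‖x j 2‖ ^ 2) := by
    intro j
    rw [EuclideanSpace.norm_sq_eq, Fin.sum_univ_three]; ring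
  rw [Fin.sum_univ_one]
  change ‖y‖ ^ 2 ≤ _
  -- the slice through (y 1, y 2)
  set R := √(‖y 1‖ ^ 2 + ‖y 2‖ ^ 2) with hR
  have hR2 : R ^ 2 = ‖y 1‖ ^ 2 + ‖y 2‖ ^ 2 := Real.sq_sqrt (by positivity)
  have hRnn : 0 ≤ R := Real.sqrt_nonneg _
  set z : Fin 2 → ℂ := ![((R⁻¹ : ℝ) : ℂ) * conj (y 1), ((R⁻¹ : ℝ) : ℂ) * conj (y 2)] with hzdef
  have z0 : z 0 = ((R⁻¹ : ℝ) : ℂ) * conj (y 1) := rfl
  have z1 : z 1 = ((R⁻¹ : ℝ) : ℂ) * conj (y 2) := rfl
  have hz : ∑ i, ‖z i‖ ^ 2 ≤ 1 := by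
    rw [Fin.sum_univ_two, z0, z1, norm_mul, norm_mul, RCLike.norm_conj, RCLike.norm_conj, mul_pow,
      mul_pow, Complex.norm_real, Real.norm_of_nonneg (inv_nonneg.2 hRnn), ← mul_add, ← hR2, ← mul_pow]
    rcases eq_or_lt_of_le hRnn with h0 | h0
    · rw [← h0]; simp
    · rw [inv_mul_cancel₀ h0.ne']; simp
  have hzy : z 0 * y 1 + z 1 * y 2 = (R : ℂ) := by
    rw [z0, z1, mul_assoc, mul_assoc, ← mul_add, mul_comm (conj (y 1)), mul_comm (conj (y 2)),
      Complex.mul_conj, Complex.mul_conj, Complex.normSq_eq_norm_sq, Complex.normSq_eq_norm_sq,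
      ← Complex.ofReal_add, ← Complex.ofReal_mul, ← hR2]
    congr 1
    rcases eq_or_lt_of_le hRnn with h0 | h0
    · rw [← h0]; simp
    · field_simp
  have hs := RowVN.slice_ineq (fun j => P 0 j) hsup z hz (fun j => x j 0)
    (fun j => z 0 * x j 1 + z 1 * x j 2)
  have s1 : ∑ j, MvPolynomial.coeff 0 (P 0 j) * x j 0 = y 0 := y0.symm
  have s2 : ∑ j, ((z 0 * MvPolynomial.coeff (Finsupp.single 0 1) (P 0 j) +
        z 1 * MvPolynomial.coeff (Finsupp.single 1 1) (P 0 j)) * x j 0 +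
        MvPolynomial.coeff 0 (P 0 j) * (z 0 * x j 1 + z 1 * x j 2)) = (R : ℂ) := by
    rw [← hzy, y1, y2, Finset.mul_sum, Finset.mul_sum, ← Finset.sum_add_distrib]
    refine Finset.sum_congr rfl fun j _ => ?_
    simp only [ha, hb0, hb1]
    ring
  rw [s1, s2, Complex.norm_real, Real.norm_of_nonneg hRnn, hR2] at hs
  rw [hysq]
  refine hs.trans ?_
  apply mul_le_mul_of_nonneg_left _ (by positivity)
  rw [← Finset.sum_add_distrib]
  refine Finset.sum_le_sum fun j _ => ?_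
  rw [hxsq]
  have hv : ‖z 0 * x j 1 + z 1 * x j 2‖ ^ 2 ≤ ‖x j 1‖ ^ 2 + ‖x j 2‖ ^ 2 := by
    have h1 : ‖z 0 * x j 1 + z 1 * x j 2‖ ≤ ‖z 0‖ * ‖x j 1‖ + ‖z 1‖ * ‖x j 2‖ := by
      refine (norm_add_le _ _).trans ?_
      rw [norm_mul, norm_mul]
    rw [Fin.sum_univ_two] at hz
    have h2 : (‖z 0‖ * ‖x j 1‖ + ‖z 1‖ * ‖x j 2‖) ^ 2 ≤
        (‖z 0‖ ^ 2 + ‖z 1‖ ^ 2) * (‖x j 1‖ ^ 2 + ‖x j 2‖ ^ 2) := by
      nlinarith [sq_nonneg (‖z 0‖ * ‖x j 2‖ - ‖z 1‖ * ‖x j 1‖)]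
    calc ‖z 0 * x j 1 + z 1 * x j 2‖ ^ 2 ≤ (‖z 0‖ * ‖x j 1‖ + ‖z 1‖ * ‖x j 2‖) ^ 2 := by gcongr
      _ ≤ _ := h2
      _ ≤ 1 * (‖x j 1‖ ^ 2 + ‖x j 2‖ ^ 2) := by gcongr
      _ = _ := one_mul _
  linarith

/-- the 2 × 2 matrix polynomial with first column `(z₁, z₂)` -/
def PP : Matrix (Fin 2) (Fin 2) (MvPolynomial (Fin 2) ℂ) := fun i j => if j = 0 then MvPolynomial.X i else 0

theorem PP_mult : MultNormLE ball2 HardySph.kk PP 1 := by
  intro F
  refine ⟨![HardySph.S1 (F 0), HardySph.S2 (F 0)], ?_, ?_⟩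
  · intro z hz i
    rw [Fin.sum_univ_two]
    fin_cases i
    · have := HardySph.kk_S1 hz (F 0)
      simpa [PP] using this
    · have := HardySph.kk_S2 hz (F 0)
      simpa [PP] using this
  · rw [Fin.sum_univ_two, Fin.sum_univ_two]
    have := HardySph.S_norm (F 0)
    simp only [Matrix.cons_val_zero, Matrix.cons_val_one]
    rw [this]
    nlinarith [sq_nonneg ‖F 1‖]

theorem coord_mult (i : Fin 2) : ∃ c, MultNormLE ball2 HardySph.kk
    (fun (_ _ : Fin 1) => (MvPolynomial.X i : MvPolynomial (Fin 2) ℂ)) c := by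
  refine ⟨1, ?_⟩
  intro F
  fin_cases i
  · refine ⟨fun _ => HardySph.S1 (F 0), ?_, ?_⟩
    · intro z hz _
      rw [Fin.sum_univ_one, HardySph.kk_S1 hz]
      simp
    · rw [Fin.sum_univ_one, Fin.sum_univ_one]
      have := HardySph.S_norm (F 0)
      nlinarith [sq_nonneg ‖HardySph.S2 (F 0)‖]
  · refine ⟨fun _ => HardySph.S2 (F 0), ?_, ?_⟩
    · intro z hz _
      rw [Fin.sum_univ_one, HardySph.kk_S2 hz]
      simp
    · rw [Fin.sum_univ_one, Fin.sum_univ_one]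
      have := HardySph.S_norm (F 0)
      nlinarith [sq_nonneg ‖HardySph.S1 (F 0)‖]

theorem PP_eval : ¬ EvalNormLE TT PP 1 := by
  intro h
  have h1 := h ![EuclideanSpace.single 0 1, 0]
  have hX : ∀ i : Fin 2, polyEval TT (MvPolynomial.X i) = TT i := by
    intro i
    rw [polyEval_TT]
    fin_cases i
    · have c1 : MvPolynomial.coeff 0 (MvPolynomial.X (0 : Fin 2) : MvPolynomial (Fin 2) ℂ) = 0 := by
        simp [MvPolynomial.coeff_X]
      have c2 : MvPolynomial.coeff (Finsupp.single 0 1)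
          (MvPolynomial.X (0 : Fin 2) : MvPolynomial (Fin 2) ℂ) = 1 := by
        simp [MvPolynomial.coeff_X]
      have c3 : MvPolynomial.coeff (Finsupp.single 1 1)
          (MvPolynomial.X (0 : Fin 2) : MvPolynomial (Fin 2) ℂ) = 0 := by
        simp [MvPolynomial.coeff_X, Finsupp.single_left_inj]
      change MvPolynomial.coeff 0 (MvPolynomial.X (0 : Fin 2)) • _ + MvPolynomial.coeff (Finsupp.single 0 1)
        (MvPolynomial.X (0 : Fin 2)) • _ + MvPolynomial.coeff (Finsupp.single 1 1)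
        (MvPolynomial.X (0 : Fin 2)) • _ = _
      rw [c1, c2, c3]
      exact aux1 _ _ _
    · have c1 : MvPolynomial.coeff 0 (MvPolynomial.X (1 : Fin 2) : MvPolynomial (Fin 2) ℂ) = 0 := by
        simp [MvPolynomial.coeff_X]
      have c2 : MvPolynomial.coeff (Finsupp.single 0 1)
          (MvPolynomial.X (1 : Fin 2) : MvPolynomial (Fin 2) ℂ) = 0 := by
        simp [MvPolynomial.coeff_X, Finsupp.single_left_inj]
      have c3 : MvPolynomial.coeff (Finsupp.single 1 1)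
          (MvPolynomial.X (1 : Fin 2) : MvPolynomial (Fin 2) ℂ) = 1 := by
        simp [MvPolynomial.coeff_X]
      change MvPolynomial.coeff 0 (MvPolynomial.X (1 : Fin 2)) • _ + MvPolynomial.coeff (Finsupp.single 0 1)
        (MvPolynomial.X (1 : Fin 2)) • _ + MvPolynomial.coeff (Finsupp.single 1 1)
        (MvPolynomial.X (1 : Fin 2)) • _ = _
      rw [c1, c2, c3]
      exact aux2 _ _ _
  rw [Fin.sum_univ_two, Fin.sum_univ_two, Fin.sum_univ_two, Fin.sum_univ_two] at h1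
  simp only [PP, Matrix.cons_val_zero, Matrix.cons_val_one, if_true, map_zero, add_zero, hX] at h1
  rw [TT_apply, TT_apply] at h1
  simp at h1
  norm_num at h1

/-- **Main result.** There are a reproducing kernel `l` on a domain `Ω ⊆ ℂ^d` (here the unit ball of
`ℂ²`) such that the coordinate functions are multipliers, and a commuting tuple `T` which satisfies
the row inequality for all row polynomials, but violates `‖P(T)‖ ≤ ‖P‖_Mult` for some square matrix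
polynomial `P`. -/
theorem result : ∃ (d : ℕ) (Ω : Set (Fin d → ℂ)) (𝓗 : Type) (_ : NormedAddCommGroup 𝓗)
    (_ : InnerProductSpace ℂ 𝓗) (_ : CompleteSpace 𝓗) (k : (Fin d → ℂ) → 𝓗)
    (l : (Fin d → ℂ) → (Fin d → ℂ) → ℂ) (H : Type) (_ : NormedAddCommGroup H)
    (_ : InnerProductSpace ℂ H) (_ : CompleteSpace H) (T : Fin d → H →L[ℂ] H),
    1 ≤ d ∧ IsOpen Ω ∧ IsConnected Ω ∧ IsRKHS Ω k l ∧
    (∀ i, ∃ c, MultNormLE Ω k (fun (_ _ : Fin 1) => (MvPolynomial.X i : MvPolynomial (Fin d) ℂ)) c) ∧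
    (∀ i j, T i * T j = T j * T i) ∧
    (∀ (m : ℕ) (P : Matrix (Fin 1) (Fin m) (MvPolynomial (Fin d) ℂ)), Star Ω k T P) ∧
    ∃ (m : ℕ) (P : Matrix (Fin m) (Fin m) (MvPolynomial (Fin d) ℂ)), ¬ Star Ω k T P := by
  refine ⟨2, ball2, HardySph.HH, _, _, inferInstance, HardySph.kk,
    fun z w => ⟪HardySph.kk z, HardySph.kk w⟫_ℂ, E3, _, _, inferInstance, TT, by norm_num, ball2_open,
    ball2_conn, ⟨fun z _ w _ => rfl, fun f hf => HardySph.total f hf⟩, coord_mult,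
    fun i j => by rw [TT_mul, TT_mul], fun m P => row_ineq P, 2, PP, ?_⟩
  intro h
  exact PP_eval (h 1 zero_le_one PP_mult)

end

end Pool.Agent.Results.MP_59d57e_an.RowNotComplete
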